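import Pool.Agent.U621.X20.Asm
import Pool.Agent.Y695.Loc
import Pool.Agent.Y695.MinD
import Pool.Agent.Y695.Rec4

/-! # The discriminants `D ≡ 1 mod 4` as products of prime discriminants -/

set_option autoImplicit false

open WeierstrassCurve WeierstrassCurve.Affine
open Pool.Agent.Y695 Pool.Agent.TH344.SH
open Pool.Agent.W97.V20 (J J0)

namespace Pool.Agent.U621.X20

/-- a squarefree `D ≡ 1 mod 4` prime to `5` is the discriminant attached to the set of its primes -/
theorem exists_S {D : ℤ} (hD : Squarefree D) (h4 : D % 4 = 1) (h5 : ¬ (5 : ℤ) ∣ D) :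
    Adm D.natAbs.primeFactors ∧ DD D.natAbs.primeFactors = D := by
  have hS : Adm D.natAbs.primeFactors := by
    intro q hq
    have hq' := Nat.prime_of_mem_primeFactors hq
    have hd := Nat.dvd_of_mem_primeFactors hq
    have hd' : (q : ℤ) ∣ D := Int.natCast_dvd.2 hd
    refine ⟨hq', ?_, ?_⟩
    · rintro rfl
      have : (2 : ℤ) ∣ D := by exact_mod_cast hd'
      omega
    · rintro rfl
      exact h5 (by exact_mod_cast hd')
  refine ⟨hS, ?_⟩
  have h1 : NN D.natAbs.primeFactors = D.natAbs := by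
    unfold NN
    exact Nat.prod_primeFactors_of_squarefree (Int.squarefree_natAbs.2 hD)
  have h2 := DD_mod4 hS
  unfold DD at h2 ⊢
  rw [h1] at h2 ⊢
  have h3 : ((D.natAbs : ℕ) : ℤ) = |D| := Int.natCast_natAbs D
  rw [h3] at h2 ⊢
  rcases ch_neg_one D.natAbs.primeFactors with h | h <;> rw [h] at h2 ⊢ <;>
    rcases abs_cases D with ⟨h6, _⟩ | ⟨h6, _⟩ <;> rw [h6] at h2 ⊢ <;> omega

theorem nsq3 : ¬ IsSquare (3 : ZMod 5) := by decide
theorem nsq2 : ¬ IsSquare (2 : ZMod 5) := by decide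

theorem not_sq {p : ℕ} [Fact p.Prime] (h : p % 20 = 3 ∨ p % 20 = 7) :
    ¬ IsSquare (5 : ZMod p) ∧ ¬ IsSquare (-1 : ZMod p) := by
  have hp : p.Prime := Fact.out
  constructor
  · intro hsq
    have hp5 : Fact (Nat.Prime 5) := ⟨by norm_num⟩
    have h2 : p ≠ 2 := by rintro rfl; omega
    have h1 := (ZMod.exists_sq_eq_prime_iff_of_mod_four_eq_one (p := 5) (q := p) (by norm_num) h2).2
      (by exact_mod_cast hsq)
    have h3 : ((p : ℕ) : ZMod 5) = 3 ∨ ((p : ℕ) : ZMod 5) = 2 := by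
      rcases h with h | h
      · left
        have : ((p : ℕ) : ZMod 5) = ((3 : ℕ) : ZMod 5) := by
          rw [ZMod.natCast_eq_natCast_iff]
          unfold Nat.ModEq
          omega
        rw [this]; rfl
      · right
        have : ((p : ℕ) : ZMod 5) = ((2 : ℕ) : ZMod 5) := by
          rw [ZMod.natCast_eq_natCast_iff]
          unfold Nat.ModEq
          omega
        rw [this]; rfl
    rcases h3 with h3 | h3 <;> rw [h3] at h1
    · exact nsq3 h1
    · exact nsq2 h1
  · intro hsq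
    have := ZMod.mod_four_ne_three_of_sq_eq_neg_one (p := p) (y := hsq.choose)
      (by rw [sq]; exact hsq.choose_spec.symm)
    omega

theorem Qp_of {q : ℕ} (h : q % 20 = 3 ∨ q % 20 = 7) : Qp q := by
  refine ⟨by omega, ?_⟩
  rw [jacobiSym.mod_left]
  have : (q : ℤ) % (5 : ℕ) = 3 ∨ (q : ℤ) % (5 : ℕ) = 2 := by omega
  rcases this with h | h <;> rw [h] <;> decide +kernel

/-- the inert twists -/
theorem inert {D : ℤ} (hD : Squarefree D) (h4 : D % 4 = 1)
    (h : ∀ p : ℕ, p.Prime → (p : ℤ) ∣ D → p % 20 = 3 ∨ p % 20 = 7) :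
    Pool.Agent.W97.MT.IsGloballyMinimal (ED D) ∧ TwoPart (ED D) := by
  have hD0 := hD.ne_zero
  have h5 : ¬ (5 : ℤ) ∣ D := by
    intro h5
    have := h 5 (by norm_num) (by exact_mod_cast h5)
    omega
  have h2 : ¬ (2 : ℤ) ∣ D := by omega
  obtain ⟨hS, hDS⟩ := exists_S hD h4 h5
  have hns : ∀ p : ℕ, ∀ hp : p.Prime, (p : ℤ) ∣ D →
      (haveI := Fact.mk hp; ¬ IsSquare (5 : ZMod p) ∧ ¬ IsSquare (-1 : ZMod p)) := by
    intro p hp hpD
    haveI := Fact.mk hp
    exact not_sq (h p hp hpD)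
  refine ⟨min_ED hD, ?_⟩
  have hsel := selHyp hD0 h2 h5 hns
  obtain ⟨m, hm, htam⟩ := tamProd_ED hD h2 h5 (fun p hp hpD => by
    haveI := Fact.mk hp
    exact not_sq (h p hp hpD))
  obtain ⟨c, hc, hodd⟩ := mu_two sym D.natAbs.primeFactors hS
  have key : TwoPart (ED (DD D.natAbs.primeFactors)) := by
    refine assemble hS (t := D.natAbs.primeFactors.card) ?_ ⟨c, ?_, hc⟩ ⟨m, hm, ?_⟩
    · rw [hDS]; exact hsel
    · apply hodd.2
      intro q hq
      exact Qp_of (h q (Nat.prime_of_mem_primeFactors hq)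
        (Int.natCast_dvd.2 (Nat.dvd_of_mem_primeFactors hq)))
    · rw [hDS]; exact htam
  rwa [hDS] at key

end Pool.Agent.U621.X20
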