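import Mathlib

/-! # Finitely generated groups `G` with `G = 2 G ∪ (2 G + T)` and `G[2] = {0, T}` -/

set_option autoImplicit false

open scoped DirectSum

namespace Pool.Agent.U621.X20

theorem finite_of {G : Type*} [AddCommGroup G] (hfg : AddGroup.FG G) (T : G) (hT : T + T = 0)
    (h : ∀ P : G, ∃ Q : G, P = Q + Q ∨ P = Q + Q + T) : Finite G := by
  classical
  obtain ⟨n, ι, _, p, hp, e, ⟨φ⟩⟩ := AddCommGroup.equiv_free_prod_directSum_zmod G
  have hn : n = 0 := by
    by_contra hn
    let i0 : Fin n := ⟨0, by omega⟩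
    let f : G →+ ℤ := (Finsupp.applyAddHom i0).comp ((AddMonoidHom.fst _ _).comp φ.toAddMonoidHom)
    obtain ⟨g, hg⟩ : ∃ g, f g = 1 := by
      refine ⟨φ.symm (Finsupp.single i0 1, 0), ?_⟩
      simp [f]
    have hfT : f T = 0 := by
      have h1 : f T + f T = 0 := by rw [← map_add, hT, map_zero]
      omega
    obtain ⟨Q, hQ | hQ⟩ := h g
    · have h1 : f g = f Q + f Q := by rw [← map_add, ← hQ]
      omega
    · have h1 : f g = f Q + f Q + f T := by rw [← map_add, ← map_add, ← hQ]
      omega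
  subst hn
  have : ∀ i, NeZero (p i ^ e i) := fun i => ⟨pow_ne_zero _ (hp i).ne_zero⟩
  have : ∀ i, Finite (ZMod (p i ^ e i)) := fun i => inferInstance
  have : Finite (⨁ i, ZMod (p i ^ e i)) := by
    have : Fintype ι := inferInstance
    exact Finite.of_equiv _ (DirectSum.addEquivProd (fun i => ZMod (p i ^ e i))).symm.toEquiv
  exact Finite.of_equiv _ φ.symm.toEquiv

theorem card_of {G : Type*} [AddCommGroup G] [Finite G] (T : G) (hT0 : T ≠ 0) (hT : T + T = 0)
    (h : ∀ P : G, ∃ Q : G, P = Q + Q ∨ P = Q + Q + T) (h2 : ∀ P : G, P + P = 0 → P = 0 ∨ P = T) :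
    ∃ t : ℕ, Odd t ∧ Nat.card G = 2 * t := by
  classical
  let f : G →+ G := AddMonoidHom.id G + AddMonoidHom.id G
  have hf : ∀ x, f x = x + x := fun x => rfl
  have hker : Nat.card f.ker = 2 := by
    have h1 : (f.ker : Set G) = {0, T} := by
      ext x
      simp only [SetLike.mem_coe, AddMonoidHom.mem_ker, hf, Set.mem_insert_iff, Set.mem_singleton_iff]
      constructor
      · exact h2 x
      · rintro (rfl | rfl)
        · simp
        · exact hT
    have h3 : Nat.card f.ker = (f.ker : Set G).ncard := rfl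
    rw [h3, h1, Set.ncard_pair (Ne.symm hT0)]
  have hrange : Nat.card G = 2 * Nat.card f.range := by
    have h1 := AddSubgroup.card_mul_index f.ker
    rw [AddSubgroup.index_ker, hker] at h1
    exact h1.symm
  refine ⟨Nat.card f.range, ?_, hrange⟩
  have hTn : T ∉ f.range := by
    rintro ⟨S, hS⟩
    have htop : f.range = ⊤ := by
      rw [eq_top_iff]
      intro P _
      obtain ⟨Q, hQ | hQ⟩ := h P
      · exact ⟨Q, by rw [hf, hQ]⟩
      · exact ⟨Q + S, by rw [map_add, hS, hf, hQ]⟩
    rw [htop, AddSubgroup.card_top] at hrange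
    have : 0 < Nat.card G := Nat.card_pos
    omega
  by_contra hodd
  rw [Nat.not_odd_iff_even, even_iff_two_dvd] at hodd
  haveI : Fact (Nat.Prime 2) := ⟨Nat.prime_two⟩
  obtain ⟨x, hx⟩ := exists_prime_addOrderOf_dvd_card' 2 hodd
  have hx2 : (x : G) + x = 0 := by
    have h1 := addOrderOf_nsmul_eq_zero x
    rw [hx, two_nsmul] at h1
    exact_mod_cast congrArg (fun z : f.range => (z : G)) h1
  rcases h2 x hx2 with h0 | h0
  · have : x = 0 := Subtype.ext h0
    rw [this, addOrderOf_zero] at hx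
    omega
  · exact hTn (h0 ▸ x.2)

end Pool.Agent.U621.X20
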