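import Pool.Agent.Y695.Lfun2
import Pool.Agent.Y695.Key
import Pool.Agent.Y695.Per2
import Pool.Agent.Y695.SymJ
import Pool.Agent.Y695.TamP
import Pool.Agent.Q286.EQ.MW
import Pool.Agent.U621.X20.Grp

/-! # The 2-part of the formula for the twists of the curve of conductor 20: the assembly -/

set_option autoImplicit false

open WeierstrassCurve WeierstrassCurve.Affine
open scoped Classical
open Pool.Agent.Y695 Pool.Agent.TH344.SH
open Pool.Agent.W97.V20 (J J0)

namespace Pool.Agent.U621.X20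

/-- the points of order two -/
theorem two_tors {D : ℤ} (hD : D ≠ 0) (P : (EQ (ED D)).toAffine.Point) (hP : P + P = 0) :
    P = 0 ∨ P = Point.some 0 0 (isT_ED D hD ℚ).ns0 := by
  have hT := isT_ED D hD ℚ
  rcases P with _ | ⟨x, y, hxy⟩
  · left; rfl
  · right
    have hy : y = 0 := (hT.dbl_zero_iff hxy).1 hP
    subst hy
    have hE := hT.nonsingular.1 hxy
    have hx : x = 0 := by
      by_contra hx
      have h1 : x ^ 2 + -11 * (D : ℚ) * x + -(D : ℚ) ^ 2 = 0 := by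
        have h2 : x * (x ^ 2 + -11 * (D : ℚ) * x + -(D : ℚ) ^ 2) = 0 := by
          rw [← hE]; ring
        exact (mul_eq_zero.1 h2).resolve_left hx
      have h3 : (2 * x - 11 * D) ^ 2 = 5 * (5 * (D : ℚ)) ^ 2 := by linear_combination 4 * h1
      have hD' : (5 * (D : ℚ)) ≠ 0 := by
        have : (D : ℚ) ≠ 0 := by exact_mod_cast hD
        positivity
      have h4 : IsSquare (5 : ℚ) := by
        refine ⟨(2 * x - 11 * D) / (5 * D), ?_⟩
        field_simp
        linear_combination -h3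
      have h5 : IsSquare (5 : ℕ) := by
        have : IsSquare ((5 : ℕ) : ℚ) := by exact_mod_cast h4
        exact_mod_cast Rat.isSquare_natCast_iff.1 this
      obtain ⟨r, hr⟩ := h5
      have hr2 : r ≤ 2 := by nlinarith
      interval_cases r <;> omega
    subst hx
    rfl


/-- the group of the rational points -/
theorem points {D : ℤ} (hD : D ≠ 0)
    (hsel : SelHyp (((-11 * D : ℤ)) : ℚ) (((-D ^ 2 : ℤ)) : ℚ)) :
    Finite (EQ (ED D)).toAffine.Point ∧
      ∃ k : ℕ, Odd k ∧ Nat.card (EQ (ED D)).toAffine.Point = 2 * k := by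
  classical
  have hT := isT_ED D hD ℚ
  have hT' : IsT (EQ (ED D)).toAffine (((-11 * D : ℤ)) : ℚ) (((-D ^ 2 : ℤ)) : ℚ) := by
    have e1 : (((-11 * D : ℤ)) : ℚ) = -11 * (D : ℚ) := by push_cast; ring
    have e2 : (((-D ^ 2 : ℤ)) : ℚ) = -(D : ℚ) ^ 2 := by push_cast; ring
    rw [e1, e2]
    exact hT
  have hfg : AddGroup.FG (EQ (ED D)).toAffine.Point := by
    apply Pool.Agent.Q286.EQ.mordell_weil ℚ (EQ (ED D))
    have h1 : (EQ (ED D)).Δ = ((ED D).Δ : ℚ) := by
      rw [WeierstrassCurve.map_Δ]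
      rfl
    rw [h1, disc_ED]
    push_cast
    have : (D : ℚ) ≠ 0 := by exact_mod_cast hD
    positivity
  have hmod : ∀ P : (EQ (ED D)).toAffine.Point, ∃ Q : (EQ (ED D)).toAffine.Point,
      P = Q + Q ∨ P = Q + Q + Point.some 0 0 hT.ns0 := fun P => points_mod_two hT' hsel P
  have hTT : Point.some 0 0 hT.ns0 + Point.some 0 0 hT.ns0 = 0 := (hT.dbl_zero_iff hT.ns0).2 rfl
  have hfin := finite_of hfg _ hTT hmod
  refine ⟨hfin, card_of (Point.some 0 0 hT.ns0) (Point.some_ne_zero _) hTT hmod (two_tors hD)⟩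

theorem sha {D : ℤ} (hD : D ≠ 0)
    (hsel : SelHyp (((-11 * D : ℤ)) : ℚ) (((-D ^ 2 : ℤ)) : ℚ)) (n : ℕ) (c : Sha (EQ (ED D)))
    (hc : 2 ^ n • c = 0) : c = 0 := by
  have hT := isT_ED D hD ℚ
  have hT' : IsT (EQ (ED D)).toAffine (((-11 * D : ℤ)) : ℚ) (((-D ^ 2 : ℤ)) : ℚ) := by
    have e1 : (((-11 * D : ℤ)) : ℚ) = -11 * (D : ℚ) := by push_cast; ring
    have e2 : (((-D ^ 2 : ℤ)) : ℚ) = -(D : ℚ) ^ 2 := by push_cast; ring
    rw [e1, e2]
    exact hT
  exact sha_two_pow hT' hsel n c hc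

/-- the value of the `L`-function is an integer multiple of a quarter of the period -/
theorem value {S : Finset ℕ} (hS : Adm S) [NeZero (NN S)] : ∃ s : ℤ, (s = 1 ∨ s = -1) ∧
    4 * LL S 1 = s * mu (fun x => J (2 * x)) J0 I1 S * (Om (ED (DD S)) : ℂ) := by
  obtain ⟨hM1, hM2⟩ := MR_eq sym hS
  have h1 := LL_one hS
  have hg := gs_sq hS
  have hN : 0 < NN S := Nat.pos_of_ne_zero (NN_ne hS)
  have hNR : (0 : ℝ) < NN S := by exact_mod_cast hN
  have hsq : ((Real.sqrt (NN S) : ℝ) : ℂ) ^ 2 = (NN S : ℂ) := by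
    have := Real.sq_sqrt hNR.le
    exact_mod_cast this
  have hsq0 : ((Real.sqrt (NN S) : ℝ) : ℂ) ≠ 0 := by
    exact_mod_cast (Real.sqrt_pos.2 hNR).ne'
  rcases ch_neg_one S with hc | hc
  · have hDD : DD S = NN S := by
      unfold DD; rw [hc, one_mul]
    have hOm := Om_pos (D := DD S) (by rw [hDD]; exact_mod_cast hN)
    have habs : |((DD S : ℤ) : ℝ)| = NN S := by
      rw [hDD]; push_cast; exact abs_of_pos hNR
    rw [habs] at hOm
    rw [hc] at hg
    have hg' : (gs S - (Real.sqrt (NN S) : ℝ)) * (gs S + (Real.sqrt (NN S) : ℝ)) = 0 := by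
      push_cast at hg
      linear_combination hg - hsq
    rw [h1, hM1 hc, hOm]
    rcases mul_eq_zero.1 hg' with h | h
    · refine ⟨1, Or.inl rfl, ?_⟩
      have h2 : gs S = (Real.sqrt (NN S) : ℝ) := sub_eq_zero.1 h
      rw [h2]
      push_cast
      field_simp
    · refine ⟨-1, Or.inr rfl, ?_⟩
      have h2 : gs S = -((Real.sqrt (NN S) : ℝ) : ℂ) := eq_neg_of_add_eq_zero_left h
      rw [h2]
      push_cast
      field_simp
  · have hDD : DD S = -(NN S : ℤ) := by
      unfold DD; rw [hc]; ring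
    have hOm := Om_neg (D := DD S) (by rw [hDD]; exact neg_neg_of_pos (by exact_mod_cast hN))
    have habs : |((DD S : ℤ) : ℝ)| = NN S := by
      rw [hDD]; push_cast; rw [abs_neg]; exact abs_of_pos hNR
    rw [habs] at hOm
    rw [hc] at hg
    have hg' : (gs S - (Real.sqrt (NN S) : ℝ) * Complex.I) *
        (gs S + (Real.sqrt (NN S) : ℝ) * Complex.I) = 0 := by
      push_cast at hg
      linear_combination hg + hsq - ((Real.sqrt (NN S) : ℝ) : ℂ) ^ 2 * Complex.I_sq
    rw [h1, hM2 hc, hOm]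
    have hI : Complex.I ≠ 0 := Complex.I_ne_zero
    rcases mul_eq_zero.1 hg' with h | h
    · refine ⟨1, Or.inl rfl, ?_⟩
      have h2 : gs S = (Real.sqrt (NN S) : ℝ) * Complex.I := sub_eq_zero.1 h
      rw [h2]
      push_cast
      field_simp
    · refine ⟨-1, Or.inr rfl, ?_⟩
      have h2 : gs S = -(((Real.sqrt (NN S) : ℝ) : ℂ) * Complex.I) := eq_neg_of_add_eq_zero_left h
      rw [h2]
      push_cast
      field_simp

/-- the 2-part of the conjecture for `E_D`: `L` is entire and does not vanish at `1`, there are finitely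
many rational points, the 2-primary part of the Tate-Shafarevich group is zero, and the analytic order
`#E(ℚ)² L(E, 1) / (Ω ∏ c_p)` is a quotient of two odd integers -/
def TwoPart (W : WeierstrassCurve ℤ) : Prop :=
  (Finite (EQ W).toAffine.Point ∧ ∃ k : ℕ, Odd k ∧ Nat.card (EQ W).toAffine.Point = 2 * k) ∧
  (∀ (n : ℕ) (c : Sha (EQ W)), 2 ^ n • c = 0 → c = 0) ∧
  ∃ Λ : ℂ → ℂ, IsLFun W Λ ∧ Λ 1 ≠ 0 ∧ ∃ a b : ℤ, Odd a ∧ Odd b ∧
    (Nat.card (EQ W).toAffine.Point : ℂ) ^ 2 * Λ 1 * b = a * (Om W * tamProd W)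

theorem assemble {S : Finset ℕ} (hS : Adm S)
    (hsel : SelHyp (((-11 * DD S : ℤ)) : ℚ) (((-(DD S) ^ 2 : ℤ)) : ℚ)) {t : ℕ}
    (hmu : ∃ c : ℤ, Odd c ∧ mu (fun x => J (2 * x)) J0 I1 S = 2 ^ t * c)
    (htam : ∃ m, Odd m ∧ tamProd (ED (DD S)) = 2 ^ t * m) : TwoPart (ED (DD S)) := by
  have : NeZero (NN S) := ⟨NN_ne hS⟩
  have hD0 := DD_ne hS
  obtain ⟨hfin, k, hk, hcard⟩ := points hD0 hsel
  refine ⟨⟨hfin, k, hk, hcard⟩, sha hD0 hsel, LL S, LL_isLFun hS, ?_⟩
  obtain ⟨s, hs, hv⟩ := value hS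
  obtain ⟨c, hc, hmu⟩ := hmu
  obtain ⟨m, hm, htam⟩ := htam
  have hΩ : Om (ED (DD S)) ≠ 0 := by
    have hN : (0 : ℝ) < |((DD S : ℤ) : ℝ)| := abs_pos.2 (by exact_mod_cast hD0)
    have h2 := Real.sqrt_pos.2 hN
    rcases lt_or_gt_of_ne hD0 with h | h
    · rw [Om_neg h]
      have := sym.I1_pos
      positivity
    · rw [Om_pos h]
      have := sym.J0_pos
      positivity
  have hcs : c ≠ 0 := by
    rintro rfl
    exact absurd hc (by decide)
  have hsc : Odd s := by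
    rcases hs with rfl | rfl <;> decide
  constructor
  · intro h0
    rw [h0, mul_zero, hmu] at hv
    have h1 : ((s : ℂ) * ((2 ^ t * c : ℤ) : ℂ)) ≠ 0 := by
      rcases hs with rfl | rfl
      · push_cast
        simp [hcs]
      · push_cast
        simp [hcs]
    exact (mul_ne_zero h1 (by exact_mod_cast hΩ)) hv.symm
  · refine ⟨k ^ 2 * s * c, m, ((Odd.pow (by exact_mod_cast hk)).mul hsc).mul hc, by exact_mod_cast hm, ?_⟩
    rw [hcard, htam]
    push_cast
    rw [hmu] at hv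
    push_cast at hv
    linear_combination (k : ℂ) ^ 2 * m * hv

end Pool.Agent.U621.X20
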